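import Pool.Agent.RKP.Main

/-!
MP_b8abfb_lc. Graphs of bounded interface.

For every set `C` of colours (of any cardinality) there is one graph `G` such that for all
colourings `f` of the edges and `g` of the non-edges with colours in `C` and for all `k` there is one
pair of colours `c1`, `c0` such that every countable graph `H` of interface at most `k` has an
induced copy in `G` with all edges of colour `c1` and all non-edges of colour `c0`.

`H` has interface at most `k` (`Interface H k`) if every finite set of vertices is contained in a
finite set `S` of vertices for which all vertices outside of `S`, except at most `k` of them, have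
the same neighbours in `S`. For example (`Pool/Agent/RKP/Ex.lean`):

* all graphs on the natural numbers in which every vertex `i` is joined to all or to none of the
  vertices `j > i + k` (e.g. the infinite paths, the infinite ladder, all graphs of bandwidth at
  most `k`), and their complements.

The definitions `Interface` and `HasType` are in `Pool/Agent/RKP/Enum.lean` and
`Pool/Agent/RKC/Defs.lean`.
-/

set_option autoImplicit false

namespace Pool.Agent.Results.MP_b8abfb_lc.BoundedInterface

universe u

open Pool.Agent.RKC Pool.Agent.RKP

theorem result (C : Type u) : ∃ (V : Type u) (G : SimpleGraph V),
    ∀ (f : G.edgeSet → C) (g : Gᶜ.edgeSet → C) (k : ℕ), ∃ c1 c0 : C,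
      ∀ (W : Type) (H : SimpleGraph W), Countable W → Interface H k →
        ∃ p : H ↪g G, ∀ x y : W, x ≠ y → HasType G f g c1 c0 (H.Adj x y) (p x) (p y) :=
  bounded_interface C

end Pool.Agent.Results.MP_b8abfb_lc.BoundedInterface
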